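import Mathlib
import Pool.Agent.TH881.RK.One
import Pool.Agent.TH881.RQ.Wrap

/-!
# Prime triplets and prime `(m + 1)`-tuples after deletion of a proportion of the primes

Delete a set of primes of relative upper density at most `δ`; let `A` be the set of the remaining
ones. Which patterns `0, h 1, ..., h m` (no local obstruction) have no translate
`p, p + h 1, ..., p + h m` consisting of primes, with `p` in `A`? (For `m = 2`: prime triples.) The
upper density of the set of these vectors `h` is at most `exp (-exp ((c / δ) ^ (1 / m) (1 + o(1))))`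
as `δ → 0`, where `c = e ^ (-m γ) S` and `S` is the smallest possible value of the singular series of
`m + 1` numbers; and this is attained. So for `m = 2` the deletion of one per cent of the primes can
only destroy a doubly exponentially small proportion of the patterns of prime triples.

The proof: (1) on average over the vectors the primes are replaced by the sieve model (circle
method), uniformly in the set `A`; (2) second moments and a mixing argument reduce the problem to
residue classes modulo a bounded primorial; (3) there a moment inequality and Mertens' theorem give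
the bound, and one vector of classes is extremal.
-/

set_option autoImplicit false

namespace Pool.Agent.Results.MP_dddec0_nt.DeletedPrimesLaw
open Finset Filter Topology

open Classical in
/-- The number of elements of `S` in `[1, x]`. -/
noncomputable def count (S : Set ℕ) (x : ℕ) : ℕ := ((Icc 1 x).filter (fun n => n ∈ S)).card

/-- The lower density, relative to the set of all primes, of the set of the primes in `A`. -/
noncomputable def relLower (A : Set ℕ) : ℝ :=
  liminf (fun x : ℕ => (count {p | p.Prime ∧ p ∈ A} x : ℝ) / (count {p | p.Prime} x : ℝ)) atTop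

/-- The vectors without local obstruction: for every prime `q` some integer `a`, not divisible by
`q`, has no `a + h j` divisible by `q`. -/
def Admissible {m : ℕ} (h : Fin m → ℕ) : Prop :=
  ∀ q : ℕ, q.Prime → ∃ a : ℕ, ¬ q ∣ a ∧ ∀ j, ¬ q ∣ a + h j

/-- The admissible vectors `h` which are lost: no prime `p` in `A` has all `p + h j` prime. -/
def lost (m : ℕ) (A : Set ℕ) : Set (Fin m → ℕ) :=
  {h | Admissible h ∧ ¬ ∃ p ∈ A, p.Prime ∧ ∀ j, (p + h j).Prime}

open Classical in
/-- The number of the vectors in `S` with entries in `[1, x]`. -/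
noncomputable def countVec {m : ℕ} (S : Set (Fin m → ℕ)) (x : ℕ) : ℕ :=
  ((Fintype.piFinset (fun _ : Fin m => Icc 1 x)).filter (fun h => h ∈ S)).card

/-- The upper density of a set of vectors. -/
noncomputable def upperDensity {m : ℕ} (S : Set (Fin m → ℕ)) : ℝ :=
  limsup (fun x : ℕ => (countVec S x : ℝ) / (x : ℝ) ^ m) atTop

/-- The largest upper density of the lost vectors for sets `A` of primes of relative lower density
at least `1 - δ`. -/
noncomputable def worst (m : ℕ) (δ : ℝ) : ℝ :=
  sSup {d | ∃ A : Set ℕ, 1 - δ ≤ relLower A ∧ d = upperDensity (lost m A)}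

/-- The minimal singular series of `m + 1` numbers: the product over all primes `p` of
`(1 - min (m, p - 2) / (p - 1)) / (1 - 1 / p) ^ m` (the partial products are decreasing from the
primes `≤ m + 1` on). -/
noncomputable def singularMin (m : ℕ) : ℝ :=
  ⨅ z : ℕ, ∏ p ∈ (Icc 1 (z + m + 1)).filter Nat.Prime,
    ((1 - ((min m (p - 2) : ℕ) : ℝ) / ((p - 1 : ℕ) : ℝ)) / (1 - 1 / (p : ℝ)) ^ m)

/-- **The exact deletion law for prime tuples.** For every `m ≥ 1`,
`δ (log log (1 / worst m δ)) ^ m → e ^ (-m γ) singularMin m` as `δ → 0+`, and the limit is positive. -/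
theorem result (m : ℕ) (hm : 1 ≤ m) : 0 < singularMin m ∧
    Tendsto (fun δ : ℝ => δ * Real.log (Real.log (1 / worst m δ)) ^ m) (𝓝[>] 0)
      (𝓝 (Real.exp (-(m * Real.eulerMascheroniConstant)) * singularMin m)) := by
  have e1 : ∀ A : Set ℕ, relLower A = Pool.Agent.TH881.RQ.relq true A := by
    intro A
    rw [Pool.Agent.TH881.RQ.relq_true]
    rfl
  have e2 : ∀ A : Set ℕ, lost m A = Pool.Agent.TH881.RK.losk true m A := by
    intro A
    ext h
    constructor
    · rintro ⟨h1, h2⟩
      refine ⟨fun q hq => ?_, ?_⟩
      · obtain ⟨a, ha, hb⟩ := h1 q hq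
        exact ⟨a, fun _ => ha, hb⟩
      · rintro ⟨p, hpA, hp, hj⟩
        exact h2 ⟨p, hpA, hp rfl, hj⟩
    · rintro ⟨h1, h2⟩
      refine ⟨fun q hq => ?_, ?_⟩
      · obtain ⟨a, ha, hb⟩ := h1 q hq
        exact ⟨a, ha rfl, hb⟩
      · rintro ⟨p, hpA, hp, hj⟩
        exact h2 ⟨p, hpA, fun _ => hp, hj⟩
  have e3 : worst m = Pool.Agent.TH881.RK.MDk true m := by
    funext δ
    unfold worst Pool.Agent.TH881.RK.MDk
    congr 1
    ext d
    constructor
    · rintro ⟨A, hA, hd⟩
      refine ⟨A, by rw [← e1]; exact hA, ?_⟩
      rw [hd, e2]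
      rfl
    · rintro ⟨A, hA, hd⟩
      refine ⟨A, by rw [e1]; exact hA, ?_⟩
      rw [hd, e2]
      rfl
  have e4 : singularMin m = Pool.Agent.TH881.RK.SSk true m := by
    unfold singularMin Pool.Agent.TH881.RK.SSk
    congr 1
  rw [e3, e4]
  exact ⟨(Pool.Agent.TH81.J3805.stLim_in true m).1, Pool.Agent.TH881.RK.law_one_in true m hm⟩

end Pool.Agent.Results.MP_dddec0_nt.DeletedPrimesLaw
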