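import Pool.Agent.TH464.PO.ShiftInst

set_option autoImplicit false

/-!
# Almost prime triples `m`, `m + a`, `m + b`: the density in all windows around almost all of
them, uniformly

Let `m` be good if `m`, `m + a` and `m + b` all have at most `r` prime factors, all larger than `X
^ (1 / r)`. Let `V` be the product of `1 - ρ(p) / p` over the primes `p ≤ X ^ (1 / r)`. Given `θ >
0` and `ε > 0` there are `K` and `r0` such that for every `r ≥ r0` and all large `X`, uniformly
for all admissible `a < b ≤ X`, in ALL intervals `(Z, Z + Y]` with `Z, Y ≥ X ^ θ`, `Z + Y ≤ 2 X`,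
for all but at most `ε Y V` of the good integers `n` of the interval (there are about `Y V` of
them) ALL windows `(u, v]` around `n` inside it of length at least `K / V` contain `(1 ± ε) (v -
u) V` good integers.
-/

namespace Pool.Agent.Results.MP_dddec0_nt.ExactNeighbours

open Finset Filter

/-- `N` has at most `B` prime factors (with multiplicity), all of them larger than `z`. -/
def AlmostPrime (B : ℕ) (z : ℝ) (N : ℕ) : Prop :=
  N.primeFactorsList.length ≤ B ∧ ∀ p : ℕ, p.Prime → p ∣ N → z < (p : ℝ)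

/-- `m` is good: `m`, `m + a` and `m + b` all have at most `r` prime factors, all larger than `X ^ (1 / r)`. -/
def Good (r X a b m : ℕ) : Prop :=
  AlmostPrime r ((X : ℝ) ^ (1 / (r : ℝ))) m ∧ AlmostPrime r ((X : ℝ) ^ (1 / (r : ℝ))) (m + a) ∧
    AlmostPrime r ((X : ℝ) ^ (1 / (r : ℝ))) (m + b)

/-- The triple `m`, `m + a`, `m + b` is admissible: it has no fixed prime divisor. -/
def Admissible (a b : ℕ) : Prop :=
  ∀ p : ℕ, p.Prime → ∃ m : ℕ, ¬ p ∣ m ∧ ¬ p ∣ m + a ∧ ¬ p ∣ m + b

open Classical in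
/-- The sieve density: the product of `1 - ρ(p) / p` over the primes `p ≤ X ^ (1 / r)`, where `ρ(p)` is
the number of the `t` mod `p` with `p ∣ t`, `p ∣ t + a` or `p ∣ t + b`. -/
noncomputable def V (r X a b : ℕ) : ℝ :=
  ∏ p ∈ (Finset.range (⌊(X : ℝ) ^ (1 / (r : ℝ))⌋₊ + 1)).filter Nat.Prime,
    (1 - (((Finset.range p).filter (fun t : ℕ => p ∣ t ∨ p ∣ t + a ∨ p ∣ t + b)).card : ℝ) / p)

open Classical in
/-- The number of the good `m` in `(u, v]`. -/
noncomputable def N (r X a b u v : ℕ) : ℕ :=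
  ((Finset.Ioc u v).filter (fun m => Good r X a b m)).card

/-- All windows around `n` inside `(Z, Z + Y]` of length at least `K / V` have the density `V` up to
`ε`. -/
def AllWindows (r X a b : ℕ) (K ε : ℝ) (Z Y n : ℕ) : Prop :=
  ∀ u v : ℕ, Z ≤ u → u < n → n ≤ v → v ≤ Z + Y → K ≤ ((v : ℝ) - u) * V r X a b →
    |(N r X a b u v : ℝ) - (v - u) * V r X a b| ≤ ε * ((v - u) * V r X a b)

open Pool.Agent.TH464.PO

open Classical in
/-- **The density in all windows around almost all of the good integers**, uniformly. -/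
theorem result (θ : ℝ) (hθ : 0 < θ) (ε : ℝ) (hε : 0 < ε) :
    ∃ (K : ℝ) (r0 : ℕ), 0 < K ∧ ∀ r : ℕ, r0 ≤ r → ∀ᶠ X : ℕ in atTop, ∀ a b : ℕ, 1 ≤ a → a < b → b ≤ X → Admissible a b →
      ∀ Z Y : ℕ, (X : ℝ) ^ θ ≤ Z → (X : ℝ) ^ θ ≤ Y → Z + Y ≤ 2 * X →
        (((Finset.Ioc Z (Z + Y)).filter
          (fun n => Good r X a b n ∧ ¬ AllWindows r X a b K ε Z Y n)).card : ℝ) ≤
            ε * (Y * V r X a b) := by
  obtain ⟨K, r0, hK, h⟩ := sh_ex 3 (by norm_num) θ hθ ε hε
  refine ⟨K, r0, hK, fun r hr => ?_⟩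
  filter_upwards [h r hr] with X hX a b ha hb hbX had Z Y hXZ hXY hZY
  exact (hX (P3 a b) (P3_card a b ha hb) (P3_le a b X hb hbX) (P3_ad a b had)
    (Good r X a b) (V r X a b) (P3_ap a b r _) (P3_V a b _) Z Y hXZ hXY hZY).2

end Pool.Agent.Results.MP_dddec0_nt.ExactNeighbours
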